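import Pool.Agent.Helper97.Nag.Goals1

/-!
# Project NAGATA (MP_d3128a_ag): packet LHY1 (the structure of all the levels)
-/

set_option autoImplicit false

namespace Pool.Agent.Helper15.Nag.LHY1

open Pool.Agent.Helper97.Nag
open Pool.Agent.Helper97.Tate (OO KK SS cf IsTh qe Th iO ser evx evK th Van Fm tst nP Idx Indep IsCub)
open Pool.Agent.Helper97

noncomputable section

theorem wkv_eq {F : Type} [Field F] (w : Fin 0 → Fˣ) (P : Fin 0 → Fin 3 → KK F) (μ : Fin 0 → ℕ)
    (d j : ℕ) (hj : 3 * j ≤ d) : WKV P μ d 3 j = SysK 3 w (d - 3 * j) 0 := by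
  unfold WKV SysK Fm
  have h0 : (0 : ℤ) ≤ (d : ℤ) - ((3 : ℕ) : ℤ) * j := by
    have : ((3 * j : ℕ) : ℤ) ≤ d := by exact_mod_cast hj
    push_cast at this ⊢
    omega
  rw [if_pos h0, iInf_of_empty, iInf_of_empty]
  have e2 : ((d : ℤ) - ((3 : ℕ) : ℤ) * j).toNat = d - 3 * j := by
    push_cast
    omega
  rw [e2]

theorem hom0 {K : Type} [Field K] {z : MvPolynomial (Fin 3) K} (h : z.IsHomogeneous 0) :
    z = MvPolynomial.C (MvPolynomial.coeff 0 z) :=
  MvPolynomial.totalDegree_eq_zero_iff_eq_C.1 (Nat.le_zero.1 h.totalDegree_le)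

/-- **LHY1** -/
theorem t (h1 : S_LEVK) : S_LHY1 := by
  intro F _ _ g hg d b x j hj
  have w : Fin 0 → Fˣ := fun i => i.elim0
  have hw : Function.Injective w := fun i => i.elim0
  have hW := wkv_eq w (fun i : Fin 0 => (i.elim0 : Fin 3 → KK F)) (fun i => i.elim0) d j hj
  rcases Nat.lt_or_eq_of_le hj with hlt | heq
  · have hν : nu1 d j = 3 * (d - 3 * j) := if_neg hlt.ne
    have hk1 : 1 ≤ 3 * (d - 3 * j) := by omega
    have hk2 : 3 * (d - 3 * j) + Fintype.card (Fin 0) * 0 = 3 * (d - 3 * j) := by omega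
    obtain ⟨a, ha1, ha2⟩ := h1 F 3 g le_rfl hg (Fin 0) w hw (d - 3 * j) 0 (3 * (d - 3 * j)) hk1 hk2
    rw [hν]
    refine ⟨a ∘ₗ (LinearEquiv.ofEq _ _ hW).toLinearMap, ?_, ?_⟩
    · intro z hz
      exact ha1 (LinearEquiv.ofEq _ _ hW z) hz
    · intro z i
      have h2 := ha2 (x i) (LinearEquiv.ofEq _ _ hW z)
      have h3 : MvPolynomial.aeval (phk 3 (x i)) (z : MvPolynomial (Fin 3) (KK F)) =
        (∏ i', evK (x i) (th (w i'))) ^ 0 *
        ∑ r : Fin (3 * (d - 3 * j)), PowerSeries.C (a (LinearEquiv.ofEq _ _ hW z) r) *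
          evK (x i) (Th (3 * (d - 3 * j)) ((r : ℕ) : ℤ) (∏ i', (-((w i' : Fˣ) : F)) ^ 0)) := h2
      show (1 : PowerSeries (KK F)) ^ j *
          MvPolynomial.aeval (phk 3 (x i)) (z : MvPolynomial (Fin 3) (KK F)) =
        1 * ∑ r : Fin (3 * (d - 3 * j)), PowerSeries.C (a (LinearEquiv.ofEq _ _ hW z) r) *
            SEX d (x i) j (r : ℕ)
      have h4 : ∀ r : ℕ, SEX d (x i) j r = evK (x i) (Th (3 * (d - 3 * j)) (r : ℤ) 1) := by
        intro r
        unfold SEX
        rw [if_neg hlt.ne]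
      simp only [h4]
      rw [h3]
      simp only [pow_zero, one_mul, one_pow, Finset.prod_const_one]
  · have hν : nu1 d j = 1 := if_pos heq
    have hz0 : ∀ z : WKV (fun i : Fin 0 => (i.elim0 : Fin 3 → KK F)) (fun i => i.elim0) d 3 j,
        (z : MvPolynomial (Fin 3) (KK F)) =
        MvPolynomial.C (MvPolynomial.coeff 0 (z : MvPolynomial (Fin 3) (KK F))) := by
      intro z
      have h2 := hW.le z.2
      have h3 : (z : MvPolynomial (Fin 3) (KK F)) ∈
          MvPolynomial.homogeneousSubmodule (Fin 3) (KK F) (d - 3 * j) := h2.1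
      rw [MvPolynomial.mem_homogeneousSubmodule, heq, Nat.sub_self] at h3
      exact hom0 h3
    rw [hν]
    refine ⟨{ toFun := fun z _ => MvPolynomial.coeff 0 (z : MvPolynomial (Fin 3) (KK F))
              map_add' := fun z z' => by
                funext _
                simp only [Submodule.coe_add, MvPolynomial.coeff_add, Pi.add_apply]
              map_smul' := fun c z => by
                funext _
                simp only [Submodule.coe_smul, MvPolynomial.coeff_smul, Pi.smul_apply,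
                  RingHom.id_apply] }, ?_, ?_⟩
    · intro z hz
      have h2 : MvPolynomial.coeff 0 (z : MvPolynomial (Fin 3) (KK F)) = 0 := congrFun hz 0
      rw [hz0 z, h2, map_zero]
      exact dvd_zero _
    · intro z i
      have h4 : ∀ r : ℕ, SEX d (x i) j r = 1 := by
        intro r
        unfold SEX
        rw [if_pos heq]
      show (1 : PowerSeries (KK F)) ^ j *
          MvPolynomial.aeval (phk 3 (x i)) (z : MvPolynomial (Fin 3) (KK F)) =
        1 * ∑ r : Fin 1, PowerSeries.C (MvPolynomial.coeff 0 (z : MvPolynomial (Fin 3) (KK F))) *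
            SEX d (x i) j (r : ℕ)
      simp only [h4]
      rw [Fin.sum_univ_one]
      have h7 : MvPolynomial.aeval (phk 3 (x i)) (z : MvPolynomial (Fin 3) (KK F)) =
          PowerSeries.C (MvPolynomial.coeff 0 (z : MvPolynomial (Fin 3) (KK F))) := by
        conv_lhs => rw [hz0 z]
        rw [MvPolynomial.aeval_C]
        rfl
      rw [h7]
      simp only [one_pow, one_mul, mul_one]

end

end Pool.Agent.Helper15.Nag.LHY1
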