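import Pool.Agent.Helper97.Nag.Goals
import Pool.Agent.Helper94.Tate.MIA

set_option autoImplicit false

noncomputable section

namespace Pool.Agent.Helper15.Nag.MIK

open Module Pool.Agent.Helper97 Pool.Agent.Helper97.Nag
open Pool.Agent.Helper97.Tate (Van Fm tst nP)
open Pool.Agent.Helper94.Tate.MIA (cfn cfn_apply tst_mem)

variable {K : Type} [Field K]

theorem mem_WK {ι : Type} {P : ι → Fin 3 → K} {m d k j : ℕ} {z : MvPolynomial (Fin 3) K} :
    z ∈ WK P m d k j ↔ z ∈ Fm K ((d : ℤ) - k * j) ∧ ∀ i, z ∈ Van (P i) (m - j) := by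
  simp only [WK, Submodule.mem_inf, Submodule.mem_iInf]

theorem Fm_deg {d : ℕ} {z : MvPolynomial (Fin 3) K} (hz : z ∈ Fm K (d : ℤ)) : z.totalDegree ≤ d := by
  rw [Fm, if_pos (by omega), MvPolynomial.mem_homogeneousSubmodule] at hz
  refine hz.totalDegree_le.trans ?_
  simp

/-- a level hypothesis without restriction on the level -/
theorem lev_all {ι : Type} {g : MvPolynomial (Fin 3) K} {P : ι → Fin 3 → K} {m d k b : ℕ}
    {ν : ℕ → ℕ} {h : Fin b → Fin 3 → PowerSeries K} {Θ B : Fin b → PowerSeries K}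
    {S : Fin b → ℕ → ℕ → PowerSeries K} (H : LevHypK g P m d k ν h Θ B S)
    (hbot : ∀ j, d < k * j → WK P m d k j = ⊥) (j : ℕ) :
    ∃ a : WK P m d k j →ₗ[K] (Fin (ν j) → K),
    (∀ z, a z = 0 → g ∣ (z : MvPolynomial (Fin 3) K)) ∧
    ∀ (z : WK P m d k j) (i : Fin b),
      Θ i ^ j * MvPolynomial.aeval (h i) (z : MvPolynomial (Fin 3) K) =
        B i * ∑ r : Fin (ν j), PowerSeries.C (a z r) * S i j r := by
  rcases Nat.lt_or_ge d (k * j) with h1 | h1
  · have h2 : ∀ z : WK P m d k j, (z : MvPolynomial (Fin 3) K) = 0 := by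
      intro z
      exact (Submodule.mem_bot K).1 ((hbot j h1).le z.2)
    refine ⟨0, fun z _ => ?_, fun z i => ?_⟩
    · rw [h2 z]
      exact dvd_zero g
    · rw [h2 z]
      simp
  · exact H j h1

/-- the conditions of one level -/
def betK {b : ℕ} (M j κ : ℕ) (Y : Fin b → K) (S : Fin b → ℕ → ℕ → PowerSeries K) :
    (Fin κ → K) →ₗ[K] (Fin b → Fin M → Fin M → K) where
  toFun a := fun l α β => if (α : ℕ) + β < M then
    Y l ^ j * ((j.choose β : ℕ) : K) * ∑ r : Fin κ, a r * PowerSeries.coeff α (S l j r) else 0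
  map_add' a a' := by
    funext l α β
    simp only [Pi.add_apply]
    split_ifs
    · rw [← mul_add, ← Finset.sum_add_distrib]
      congr 1
      exact Finset.sum_congr rfl fun r _ => add_mul _ _ _
    · rw [add_zero]
  map_smul' c a := by
    funext l α β
    simp only [Pi.smul_apply, smul_eq_mul, RingHom.id_apply]
    split_ifs
    · simp only [Finset.mul_sum]
      apply Finset.sum_congr rfl
      intro r _
      ring
    · rw [mul_zero]

theorem t (hG : S_GRKD) (hE : Tate.S_EXP) (hJ : Tate.S_JJI) (hD : S_DRPK) (hV : Tate.S_VAB) :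
    S_MIK := by
  intro K _ _ ι _ _ g P m d k b M ν h v Θ B Y S hk hgk h9 haev hder hB hLev
  obtain ⟨hmul, hdiv, hbot, hfd⟩ := hD K ι g P m d k hk hgk h9
  have hg0 : g ≠ 0 := by
    intro h0
    obtain ⟨i⟩ : Nonempty ι := inferInstance
    apply (h9 i).2
    rw [h0]
    exact Submodule.zero_mem _
  choose aL haL1 haL2 using fun j => lev_all hLev hbot j
  choose Ls hLs1 hLs2 hLs3 using fun l => hE K g (h l) (v l) (Θ l) (Y l) (haev l) (hder l)
  -- the filtration
  let μ : ℕ → MvPolynomial (Fin 3) K →ₗ[K] MvPolynomial (Fin 3) K := fun j => LinearMap.mulLeft K (g ^ j)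
  have hμ : ∀ j z, μ j z = g ^ j * z := fun j z => rfl
  have hinj : ∀ j, Function.Injective (μ j) := by
    intro j z z' hz
    rw [hμ, hμ] at hz
    exact mul_left_cancel₀ (pow_ne_zero j hg0) hz
  let F : ℕ → Submodule K (MvPolynomial (Fin 3) K) := fun j => (WK P m d k j).map (μ j)
  let e : ∀ j, WK P m d k j ≃ₗ[K] F j := fun j =>
    Submodule.equivMapOfInjective (μ j) (hinj j) (WK P m d k j)
  have he : ∀ j (z : WK P m d k j), ((e j z : F j) : MvPolynomial (Fin 3) K) = g ^ j * z :=
    fun j z => rfl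
  have he' : ∀ j (z : F j), (z : MvPolynomial (Fin 3) K) =
      g ^ j * ((e j).symm z : MvPolynomial (Fin 3) K) := by
    intro j z
    rw [← he, LinearEquiv.apply_symm_apply]
  have hFd : FiniteDimensional K (F 0) := by
    have := hfd 0
    exact Module.Finite.equiv (e 0)
  have hFle : ∀ j, F (j + 1) ≤ F j := by
    intro j z hz
    obtain ⟨z', hz', rfl⟩ := hz
    refine ⟨g ^ 1 * z', hmul j 1 z' hz', ?_⟩
    rw [hμ, hμ]
    ring
  obtain ⟨lam, hlam⟩ : ∃ lam, lam = d / k + 1 := ⟨_, rfl⟩
  have hFbot : F lam = ⊥ := by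
    have h1 : d < k * lam := by
      rw [hlam, Nat.mul_add, mul_one]
      have h2 := Nat.div_add_mod d k
      have h3 := Nat.mod_lt d hk
      omega
    show (WK P m d k lam).map (μ lam) = ⊥
    rw [hbot lam h1, Submodule.map_bot]
  let a : ∀ j : Fin lam, F j →ₗ[K] (Fin (ν j) → K) := fun j =>
    (aL j) ∘ₗ (e j).symm.toLinearMap
  have ha : ∀ (j : Fin lam) (z : F j), a j z = aL j ((e j).symm z) := fun j z => rfl
  -- the units
  have hu : ∀ l, ∃ u : PowerSeries K, u * B l = 1 := by
    intro l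
    exact ⟨(B l)⁻¹, PowerSeries.inv_mul_cancel _ (hB l)⟩
  choose u hu using hu
  let L : ℕ → MvPolynomial (Fin 3) K →ₗ[K] (Fin b → Fin M → Fin M → K) := fun i =>
    LinearMap.pi fun l => LinearMap.pi fun α => LinearMap.pi fun β =>
      (cfn (u l) M α β) ∘ₗ (Ls l i)
  have hL : ∀ i z l α β, L i z l α β = cfn (u l) M α β (Ls l i z) := fun i z l α β => rfl
  have hn : 0 < d + lam + 1 := by omega
  obtain ⟨E, hE'⟩ := hG K (MvPolynomial (Fin 3) K) (Fin b → Fin M → Fin M → K) lam
    (d + lam + 1) (fun j : Fin lam => (Fin (ν j) → K)) F L a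
    (fun j : Fin lam => betK M (j : ℕ) (ν j) Y S) hFle hn (by omega) hFbot
    (by
      intro i j hij z hz
      obtain ⟨z', hz', rfl⟩ := hz
      funext l α β
      rw [hL, hμ, hLs2 l i j z' hij, map_zero]
      rfl)
    (by
      intro j z
      funext l α β
      rw [hL, he' j z, hLs3 l j, cfn_apply, ha]
      have h1 := haL2 (j : ℕ) ((e j).symm z) l
      set A := aL (j : ℕ) ((e j).symm z) with hA
      change _ = if (α : ℕ) + β < M then
        Y l ^ (j : ℕ) * (((j : ℕ).choose β : ℕ) : K) *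
          ∑ r : Fin (ν j), A r * PowerSeries.coeff α (S l j r) else 0
      split_ifs with hαβ
      · have h2 : ((1 + Polynomial.X : Polynomial (PowerSeries K)) ^ (j : ℕ)).coeff β =
            (((j : ℕ).choose β : ℕ) : PowerSeries K) := Polynomial.coeff_one_add_X_pow _ _ _
        rw [Polynomial.coeff_C_mul, h2]
        have h3 : u l * (PowerSeries.C (Y l ^ (j : ℕ)) * Θ l ^ (j : ℕ) *
            MvPolynomial.aeval (h l) (((e j).symm z : WK P m d k j) :
              MvPolynomial (Fin 3) K) * (((j : ℕ).choose β : ℕ) : PowerSeries K)) =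
            PowerSeries.C (Y l ^ (j : ℕ) * (((j : ℕ).choose β : ℕ) : K)) *
              ∑ r : Fin (ν j), PowerSeries.C (A r) * S l j r := by
          have h5 : PowerSeries.C (Y l ^ (j : ℕ) * (((j : ℕ).choose β : ℕ) : K)) =
              PowerSeries.C (Y l ^ (j : ℕ)) * (((j : ℕ).choose β : ℕ) : PowerSeries K) := by
            rw [map_mul, map_natCast]
          rw [h5]
          calc _ = (PowerSeries.C (Y l ^ (j : ℕ)) * (((j : ℕ).choose β : ℕ) : PowerSeries K)) *
                (u l * (Θ l ^ (j : ℕ) * MvPolynomial.aeval (h l)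
                  (((e j).symm z : WK P m d k j) : MvPolynomial (Fin 3) K))) := by ring
            _ = (PowerSeries.C (Y l ^ (j : ℕ)) * (((j : ℕ).choose β : ℕ) : PowerSeries K)) *
                ((u l * B l) * ∑ r : Fin (ν j), PowerSeries.C (A r) * S l j r) := by
                rw [h1]
                ring
            _ = _ := by
                rw [hu l, one_mul]
        rw [h3, PowerSeries.coeff_C_mul, map_sum]
        congr 1
        exact Finset.sum_congr rfl fun r _ => PowerSeries.coeff_C_mul _ _ _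
      · rfl)
    (by
      intro j z hz
      rw [ha] at hz
      obtain ⟨z', hz'⟩ := haL1 _ _ hz
      refine ⟨z', ?_, ?_⟩
      · have h1 : g * z' ∈ WK P m d k j := by
          rw [← hz']
          exact ((e j).symm z).2
        exact hdiv (j : ℕ) z' h1
      · rw [hμ, he' j z, hz']
        ring)
  obtain ⟨ε, hε⟩ := Infinite.exists_notMem_finset E
  have h1 := hE' ε hε
  refine ⟨fun l => nP (h l) (v l) ε, ?_⟩
  have h3 : LinearMap.ker (∑ j : Fin lam, (betK M (j : ℕ) (ν j) Y S) ∘ₗ (LinearMap.proj j :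
      (∀ j : Fin lam, (Fin (ν j) → K)) →ₗ[K] (Fin (ν j) → K))) ≤ KerK M lam ν Y S := by
    intro x hx l α β hαβ
    rw [LinearMap.mem_ker, LinearMap.sum_apply] at hx
    have h4 := congrFun (congrFun (congrFun hx l) ⟨α, by omega⟩) ⟨β, by omega⟩
    rw [Finset.sum_apply, Finset.sum_apply, Finset.sum_apply] at h4
    refine Eq.trans ?_ h4
    apply Finset.sum_congr rfl
    intro j _
    change _ = if α + β < M then
      Y l ^ (j : ℕ) * (((j : ℕ).choose β : ℕ) : K) *
        ∑ r : Fin (ν j), x j r * PowerSeries.coeff α (S l j r) else 0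
    rw [if_pos hαβ]
  have h4 : Fm K (d : ℤ) ⊓ (⨅ i, Van (P i) m) ⊓ (⨅ l, Van (nP (h l) (v l) ε) M) ≤
      F 0 ⊓ LinearMap.ker (∑ i ∈ Finset.range (d + lam + 1), ε ^ i • L i) := by
    intro z hz
    simp only [Submodule.mem_inf, Submodule.mem_iInf] at hz
    obtain ⟨⟨hz1, hz2⟩, hz3⟩ := hz
    refine Submodule.mem_inf.2 ⟨?_, ?_⟩
    · refine ⟨z, mem_WK.2 ⟨?_, ?_⟩, by rw [hμ, pow_zero, one_mul]⟩
      · have h5 : (d : ℤ) - k * ((0 : ℕ) : ℤ) = d := by simp
        rw [h5]
        exact hz1
      · intro i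
        rw [Nat.sub_zero]
        exact hz2 i
    · rw [LinearMap.mem_ker]
      funext l α β
      have h6 : tst (h l) (v l) ε z ∈
          (Ideal.span {Polynomial.C PowerSeries.X, Polynomial.X} : Ideal (Polynomial (PowerSeries K))) ^ M := by
        apply (hV K (nP (h l) (v l) ε)).2.2.2 _ (tst (h l) (v l) ε) _ M z _ (hz3 l)
        exact tst_mem (h l) (v l) ε
      have h7 : (∑ i ∈ Finset.range (d + lam + 1), ε ^ i • L i) z l α β =
          cfn (u l) M α β (tst (h l) (v l) ε z) := by
        rw [hLs1 l (d + lam + 1) z ε (by have := Fm_deg hz1; omega), map_sum, LinearMap.sum_apply,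
          Finset.sum_apply, Finset.sum_apply, Finset.sum_apply]
        apply Finset.sum_congr rfl
        intro i _
        rw [map_smul]
        rfl
      rw [h7, cfn_apply]
      split_ifs with hαβ
      · have h8 := hJ K M (Polynomial.C (u l) * tst (h l) (v l) ε z) (Ideal.mul_mem_left _ _ h6) α β hαβ
        rw [Polynomial.coeff_C_mul] at h8
        rw [h8]
        rfl
      · rfl
  have hfin : FiniteDimensional K (F 0 ⊓ LinearMap.ker (∑ i ∈ Finset.range (d + lam + 1), ε ^ i • L i) :
      Submodule K (MvPolynomial (Fin 3) K)) := Submodule.finiteDimensional_inf_left _ _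
  rw [← hlam]
  calc _ ≤ finrank K (F 0 ⊓ LinearMap.ker (∑ i ∈ Finset.range (d + lam + 1), ε ^ i • L i) :
      Submodule K (MvPolynomial (Fin 3) K)) := Submodule.finrank_mono h4
    _ ≤ _ := h1
    _ ≤ _ := Submodule.finrank_mono h3

end Pool.Agent.Helper15.Nag.MIK
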